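import Mathlib
import Pool.Agent.N186.HK.Main
import Pool.Agent.N729.HP.All

/-!
# Permanental ideals of Hankel matrices are not prime if `t < min (m, n)`

Let `k` be a field of characteristic zero or of odd characteristic. For all `2 ≤ t < min (m, n)` the
ideal generated by the permanents of the `t × t` submatrices of the `m × n` Hankel matrix of
variables is not prime.

Idea: suppose that `P_t` is prime and let `D` be the domain `k[z] / P_t`. The variables
`z_1, …, z_t` are algebraically independent in `D` (every element of `P_t` lies in the ideal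
`(z_t, …, z_{m + n - 1})`, and `z_t` is not in `P_t`), so the transcendence degree of `D` is at least
`t`. On the other hand there is a rational point `q` of the variety of `P_t` at which the Jacobian
matrix of `P_t` has rank at least `m + n - t`, so that the transcendence degree of `D` is at most
`t - 1`. For `m ≤ n` and `n ≤ 2 t - 3` the point `q` has at most four nonzero coordinates, all
`1` or `-1`, whose indices are congruent modulo `g = n - t + 1`. At such a point the Hankel matrix
is the direct sum of `g` Hankel blocks of size about `m / g`, two of which (or more) are square with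
permanent zero and with an invertible matrix of cofactors, and the derivatives of the `t × t`
permanents at `q` can be computed. For `n ≥ 2 t - 2` the theorem follows from `HankelLarge`.
-/

set_option autoImplicit false

namespace Pool.Agent.N729.Shelf.HankelInterior

open Matrix

/-- The ideal `P_t(X)` generated by the permanents of all `t × t` submatrices of `X`. -/
def permIdeal {R : Type*} [CommRing R] {m n : ℕ} (t : ℕ) (X : Matrix (Fin m) (Fin n) R) :
    Ideal R :=
  Ideal.span {x | ∃ (r : Fin t ↪o Fin m) (c : Fin t ↪o Fin n), x = (X.submatrix r c).permanent}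

/-- The `m × n` Hankel matrix of the independent variables `z_1, …, z_{m + n - 1}`. Rows, columns and
variables are numbered from `0` here, so that the entry at `(i, j)` is the variable number `i + j`. -/
noncomputable def hankel (k : Type*) [Field k] (m n : ℕ) :
    Matrix (Fin m) (Fin n) (MvPolynomial (Fin (m + n - 1)) k) :=
  Matrix.of fun i j => MvPolynomial.X ⟨i.val + j.val, by omega⟩

lemma isHankel (m n : ℕ) : Pool.Agent.N186.HK.IsHankel
    (fun (i : Fin m) (j : Fin n) => (⟨i.val + j.val, by omega⟩ : Fin (m + n - 1))) := by
  intro i j i' j'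
  rw [Fin.mk.injEq]

/-- the transposed matrix -/
lemma transpose_iff (k : Type*) [Field k] (m n t : ℕ) :
    (Pool.Agent.R831.PermIdeal.permIdeal t (Pool.Agent.N186.HK.vm k
      (fun (i : Fin n) (j : Fin m) => (⟨i.val + j.val, by omega⟩ : Fin (m + n - 1))))).IsPrime ↔
    (permIdeal t (hankel k m n)).IsPrime := by
  have h2 := Pool.Agent.R831.PermIdeal.permIdeal_transpose (t := t) (hankel k m n)
  have h3 : Pool.Agent.N186.HK.vm k (fun (i : Fin n) (j : Fin m) =>
      (⟨i.val + j.val, by omega⟩ : Fin (m + n - 1))) = (hankel k m n)ᵀ := by
    ext1 i j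
    simp only [Pool.Agent.N186.HK.vm, hankel, Matrix.transpose_apply, Matrix.of_apply,
      Nat.add_comm]
  rw [h3, h2]
  rfl

/-- the case `m ≤ n` -/
lemma aux {k : Type*} [Field k] (h2 : (2 : k) ≠ 0) {m n t : ℕ} (ht : 2 ≤ t) (hm : t < m)
    (hmn : m ≤ n) : ¬ (permIdeal t (hankel k m n)).IsPrime := by
  rcases Nat.lt_or_ge (2 * t) (n + 3) with h | h
  · refine Pool.Agent.N186.HK.aux h2 ht hm.le hmn (by omega) ?_ (isHankel m n)
    have h3 : 2 * t - n ≤ 2 := by omega
    interval_cases h4 : 2 * t - n
    · simp
    · simp
    · simpa using h2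
  · rw [← transpose_iff]
    exact Pool.Agent.N729.HP.interior k h2 (m + n - 1) n m t (by omega) hm hmn (by omega)

/-- Let `k` be a field of characteristic `p ≠ 2` (that is, `p = 0` or `p` is an odd prime). For
`2 ≤ t`, `t < m` and `t < n`, the ideal generated by the permanents of the `t × t` submatrices of the
`m × n` Hankel matrix of variables is not prime. -/
theorem result (k : Type*) [Field k] (p : ℕ) [CharP k p] (hp : p ≠ 2) (m n t : ℕ) (ht : 2 ≤ t)
    (hm : t < m) (hn : t < n) : ¬ (permIdeal t (hankel k m n)).IsPrime := by
  have h2 : (2 : k) ≠ 0 := by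
    intro h
    have h1 : ((2 : ℕ) : k) = 0 := by exact_mod_cast h
    rw [CharP.cast_eq_zero_iff k p] at h1
    rcases CharP.char_is_prime_or_zero k p with h3 | h3
    · exact hp ((Nat.prime_dvd_prime_iff_eq h3 Nat.prime_two).1 h1)
    · subst h3
      rw [zero_dvd_iff] at h1
      omega
  rcases Nat.le_total m n with h | h
  · exact aux h2 ht hm h
  · intro h3
    refine aux h2 ht hn h ?_
    have h4 := Pool.Agent.R831.PermIdeal.permIdeal_transpose (t := t) (hankel k m n)
    have h5 : ∀ (N N' : ℕ) (e : N = N') (f : Fin n → Fin m → Fin N)
        (g : Fin n → Fin m → Fin N') (_ : ∀ i j, (f i j).val = (g i j).val)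
        (_ : (Pool.Agent.R831.PermIdeal.permIdeal t (Matrix.of fun i j =>
          (MvPolynomial.X (f i j) : MvPolynomial (Fin N) k))).IsPrime),
        (Pool.Agent.R831.PermIdeal.permIdeal t (Matrix.of fun i j =>
          (MvPolynomial.X (g i j) : MvPolynomial (Fin N') k))).IsPrime := by
      intro N N' e f g hfg hP
      subst e
      have : f = g := by
        funext i j
        exact Fin.ext (hfg i j)
      rw [← this]
      exact hP
    refine h5 (m + n - 1) (n + m - 1) (by omega) (fun i j => ⟨j.val + i.val, by omega⟩)
      (fun i j => ⟨i.val + j.val, by omega⟩) (fun i j => Nat.add_comm _ _) ?_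
    rw [show (Matrix.of fun (i : Fin n) (j : Fin m) => (MvPolynomial.X
      (⟨j.val + i.val, by omega⟩ : Fin (m + n - 1)) : MvPolynomial (Fin (m + n - 1)) k)) =
      (hankel k m n)ᵀ from rfl, h4]
    exact h3

end Pool.Agent.N729.Shelf.HankelInterior
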