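import Mathlib
import Pool.Agent.N186.HK.Main
import Pool.Agent.N729.HQ.All

/-!
# Permanental ideals are prime if and only if `t = m = n`

Let `k` be a field of characteristic zero or of odd characteristic, `2 ≤ t ≤ min (m, n)`, and let `X`
be an `m × n` generic, symmetric (`m = n`) or Hankel matrix of variables. The ideal `P_t(X)`
generated by the permanents of the `t × t` submatrices of `X` is prime if and only if `t = m = n`.

* `t = m = n`: the ideal is generated by the permanent of `X`, which is irreducible: it is
  `x m + c` with `x` the variable at the position `(1, 1)`, `m` the permanent of the matrix without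
  the first row and column, irreducible by induction, and `m` does not divide `c`.
* not `t = m = n`, generic and symmetric matrices: take `t` columns and one further column `w`, in
  `t` rows. If `Q` is the matrix of the permanental cofactors of the `t × t` block, then `w Q` has
  its entries in the ideal, so that `det (Q) w` does, but `det Q` and the entries of `w` are not in
  the ideal (`Pool.Agent.R831.PermIdeal.not_prime_pattern`).
* not `t = m = n`, Hankel matrices: suppose that `P_t` is prime. It is contained in the ideal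
  `(z_t, …, z_{m + n - 1})` and it does not contain `z_t`, so that the variables `z_1, …, z_t` are
  algebraically independent modulo `P_t` and the dimension of `P_t` is at least `t`. On the other
  hand there is a rational point of the variety of `P_t`, with at most six nonzero coordinates, all
  `1` or `-1`, at which the tangent space, or the tangent cone, has dimension at most `t - 1`. At
  such a point the Hankel matrix is the direct sum of `n - t + 1` smaller Hankel matrices, or
  differs from such a direct sum at one or two entries, and the derivatives of the permanents at the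
  point can be computed. (For `n ≥ 2 t - 1` there is another argument, in
  `Pool.Agent.N186.HK.Main`.)
-/

set_option autoImplicit false

namespace Pool.Agent.N729.Shelf.PrimeIff

open Matrix

/-- The ideal `P_t(X)` generated by the permanents of all `t × t` submatrices of `X`. -/
def permIdeal {R : Type*} [CommRing R] {m n : ℕ} (t : ℕ) (X : Matrix (Fin m) (Fin n) R) :
    Ideal R :=
  Ideal.span {x | ∃ (r : Fin t ↪o Fin m) (c : Fin t ↪o Fin n), x = (X.submatrix r c).permanent}

/-- The generic `m × n` matrix: its entries are independent variables. -/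
noncomputable def generic (k : Type*) [Field k] (m n : ℕ) :
    Matrix (Fin m) (Fin n) (MvPolynomial (Fin m × Fin n) k) :=
  Matrix.of fun i j => MvPolynomial.X (i, j)

/-- The symmetric `n × n` matrix of variables: the variable at the positions `(i, j)` and `(j, i)`
has the unordered pair `s(i, j)` as its name. -/
noncomputable def symmetric (k : Type*) [Field k] (n : ℕ) :
    Matrix (Fin n) (Fin n) (MvPolynomial (Sym2 (Fin n)) k) :=
  Matrix.of fun i j => MvPolynomial.X s(i, j)

/-- The `m × n` Hankel matrix of the independent variables `z_1, …, z_{m + n - 1}`. Rows, columns and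
variables are numbered from `0` here, so that the entry at `(i, j)` is the variable number `i + j`. -/
noncomputable def hankel (k : Type*) [Field k] (m n : ℕ) :
    Matrix (Fin m) (Fin n) (MvPolynomial (Fin (m + n - 1)) k) :=
  Matrix.of fun i j => MvPolynomial.X ⟨i.val + j.val, by omega⟩

/-! ### The generic and the symmetric matrix -/

/-- equal variables occur at most in transposed positions -/
def AtMostSymmetric {m n : ℕ} {σ : Type*} (f : Fin m → Fin n → σ) : Prop :=
  ∀ i j i' j', f i j = f i' j' →
    (i.val = i'.val ∧ j.val = j'.val) ∨ (i.val = j'.val ∧ j.val = i'.val)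

open Pool.Agent.R831 in
lemma aux {k σ : Type*} [Field k] (h2 : (2 : k) ≠ 0) {m n t : ℕ} (ht : 2 ≤ t)
    (hm : t ≤ m) (hn : t < n) (f : Fin m → Fin n → σ) (hf : AtMostSymmetric f) :
    ¬ (permIdeal t (Matrix.of fun i j => (MvPolynomial.X (f i j) : MvPolynomial σ k))).IsPrime := by
  classical
  let Y : ℕ → ℕ → k := fun a b => if h : a < t ∧ b < t then
    Perm.N0 k (⟨0, by omega⟩ : Fin t) ⟨a, h.1⟩ ⟨b, h.2⟩ else 0
  have hY : ∀ a b, Y a b = Y b a := by
    intro a b
    by_cases h : a < t ∧ b < t
    · simp only [Y]
      rw [dif_pos h, dif_pos h.symm, Perm.N0_symm]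
    · simp only [Y]
      rw [dif_neg h, dif_neg fun h' => h h'.symm]
  let y : σ → k := fun v => if h : ∃ p : Fin m × Fin n, f p.1 p.2 = v then
    Y (Classical.choose h).1.val (Classical.choose h).2.val else 0
  have hy : ∀ i j, y (f i j) = Y i.val j.val := by
    intro i j
    have hex : ∃ p : Fin m × Fin n, f p.1 p.2 = f i j := ⟨(i, j), rfl⟩
    simp only [y]
    rw [dif_pos hex]
    rcases hf _ _ _ _ (Classical.choose_spec hex) with ⟨h1, h2⟩ | ⟨h1, h2⟩
    · rw [h1, h2]
    · rw [h1, h2, hY]
  exact PermIdeal.not_prime_pattern h2 ht hm hn f y fun i j => hy i j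

lemma pattern_not_prime {k : Type*} [Field k] (h2 : (2 : k) ≠ 0) {m n t : ℕ} (ht : 2 ≤ t)
    (hm : t ≤ m) (hn : t ≤ n) (hne : ¬ (t = m ∧ t = n)) {σ : Type*} (f : Fin m → Fin n → σ)
    (hf : AtMostSymmetric f) :
    ¬ (permIdeal t (Matrix.of fun i j => (MvPolynomial.X (f i j) : MvPolynomial σ k))).IsPrime := by
  rcases Nat.lt_or_ge t n with h | h
  · exact aux h2 ht hm h f hf
  · have hm' : t < m := by omega
    have := aux (k := k) h2 ht hn hm' (fun i j => f j i) (by
      intro i j i' j' h
      rcases hf _ _ _ _ h with ⟨h1, h2⟩ | ⟨h1, h2⟩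
      · exact Or.inl ⟨h2, h1⟩
      · exact Or.inr ⟨h2, h1⟩)
    have h4 := Pool.Agent.R831.PermIdeal.permIdeal_transpose (t := t)
      (Matrix.of fun (i : Fin m) (j : Fin n) => (MvPolynomial.X (f i j) : MvPolynomial σ k))
    intro h5
    apply this
    change (Pool.Agent.R831.PermIdeal.permIdeal t _).IsPrime
    rw [show (Matrix.of fun (i : Fin n) (j : Fin m) =>
      (MvPolynomial.X (f j i) : MvPolynomial σ k)) = (Matrix.of fun (i : Fin m) (j : Fin n) =>
        (MvPolynomial.X (f i j) : MvPolynomial σ k))ᵀ from rfl, h4]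
    exact h5

/-! ### The Hankel matrix -/

lemma isHankel (m n : ℕ) : Pool.Agent.N186.HK.IsHankel
    (fun (i : Fin m) (j : Fin n) => (⟨i.val + j.val, by omega⟩ : Fin (m + n - 1))) := by
  intro i j i' j'
  rw [Fin.mk.injEq]

/-- the transposed matrix -/
lemma transpose_iff (k : Type*) [Field k] (m n t : ℕ) :
    (Pool.Agent.R831.PermIdeal.permIdeal t (Pool.Agent.N186.HK.vm k
      (fun (i : Fin n) (j : Fin m) => (⟨i.val + j.val, by omega⟩ : Fin (m + n - 1))))).IsPrime ↔
    (permIdeal t (hankel k m n)).IsPrime := by
  have h2 := Pool.Agent.R831.PermIdeal.permIdeal_transpose (t := t) (hankel k m n)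
  have h3 : Pool.Agent.N186.HK.vm k (fun (i : Fin n) (j : Fin m) =>
      (⟨i.val + j.val, by omega⟩ : Fin (m + n - 1))) = (hankel k m n)ᵀ := by
    ext1 i j
    simp only [Pool.Agent.N186.HK.vm, hankel, Matrix.transpose_apply, Matrix.of_apply,
      Nat.add_comm]
  rw [h3, h2]
  rfl

/-- the Hankel matrix, `m ≤ n` -/
lemma hankel_aux {k : Type*} [Field k] (h2 : (2 : k) ≠ 0) {m n t : ℕ} (ht : 2 ≤ t) (hm : t ≤ m)
    (hmn : m ≤ n) (htn : t < n) : ¬ (permIdeal t (hankel k m n)).IsPrime := by
  rcases Nat.lt_or_ge (2 * t) (n + 2) with h | h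
  · refine Pool.Agent.N186.HK.aux h2 ht hm hmn (by omega) ?_ (isHankel m n)
    have h3 : 2 * t - n ≤ 1 := by omega
    interval_cases h4 : 2 * t - n
    · simp
    · simp
  · rcases Nat.lt_or_ge t m with h1 | h1
    · rcases Nat.lt_or_ge (2 * t) (n + 3) with h' | h'
      · refine Pool.Agent.N186.HK.aux h2 ht hm hmn (by omega) ?_ (isHankel m n)
        rw [show 2 * t - n = 2 by omega]
        simpa using h2
      · rw [← transpose_iff]
        exact Pool.Agent.N729.HP.interior k h2 (m + n - 1) n m t (by omega) h1 hmn (by omega)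
    · obtain rfl : t = m := by omega
      rw [← transpose_iff]
      exact Pool.Agent.N729.HQ.max_not_prime k h2 n t htn (by omega) (t + n - 1) (by omega)

lemma hankel_not_prime {k : Type*} [Field k] (h2 : (2 : k) ≠ 0) {m n t : ℕ} (ht : 2 ≤ t)
    (hm : t ≤ m) (hn : t ≤ n) (hne : ¬ (t = m ∧ t = n)) :
    ¬ (permIdeal t (hankel k m n)).IsPrime := by
  rcases Nat.le_total m n with h | h
  · exact hankel_aux h2 ht hm h (by omega)
  · intro h3
    refine hankel_aux h2 ht hn h (by omega) ?_
    have h4 := Pool.Agent.R831.PermIdeal.permIdeal_transpose (t := t) (hankel k m n)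
    have h5 : ∀ (N N' : ℕ) (e : N = N') (f : Fin n → Fin m → Fin N)
        (g : Fin n → Fin m → Fin N') (_ : ∀ i j, (f i j).val = (g i j).val)
        (_ : (Pool.Agent.R831.PermIdeal.permIdeal t (Matrix.of fun i j =>
          (MvPolynomial.X (f i j) : MvPolynomial (Fin N) k))).IsPrime),
        (Pool.Agent.R831.PermIdeal.permIdeal t (Matrix.of fun i j =>
          (MvPolynomial.X (g i j) : MvPolynomial (Fin N') k))).IsPrime := by
      intro N N' e f g hfg hP
      subst e
      have : f = g := by
        funext i j
        exact Fin.ext (hfg i j)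
      rw [← this]
      exact hP
    refine h5 (m + n - 1) (n + m - 1) (by omega) (fun i j => ⟨j.val + i.val, by omega⟩)
      (fun i j => ⟨i.val + j.val, by omega⟩) (fun i j => Nat.add_comm _ _) ?_
    rw [show (Matrix.of fun (i : Fin n) (j : Fin m) => (MvPolynomial.X
      (⟨j.val + i.val, by omega⟩ : Fin (m + n - 1)) : MvPolynomial (Fin (m + n - 1)) k)) =
      (hankel k m n)ᵀ from rfl, h4]
    exact h3

/-! ### The case `t = m = n` -/

lemma permIdeal_self {R : Type*} [CommRing R] (n : ℕ) (X : Matrix (Fin n) (Fin n) R) :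
    permIdeal n X = Ideal.span {X.permanent} := by
  have h : ∀ r : Fin n ↪o Fin n, ∀ i, r i = i := by
    intro r i
    have h1 : r = RelEmbedding.refl _ := by
      refine OrderEmbedding.range_inj.1 ?_
      rw [Set.range_eq_univ.2 (Finite.surjective_of_injective r.injective)]
      exact (Set.range_eq_univ.2 fun x => ⟨x, rfl⟩).symm
    rw [h1]
    rfl
  have h1 : {x | ∃ (r : Fin n ↪o Fin n) (c : Fin n ↪o Fin n),
      x = (X.submatrix r c).permanent} = {X.permanent} := by
    ext x
    simp only [Set.mem_setOf_eq, Set.mem_singleton_iff]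
    constructor
    · rintro ⟨r, c, rfl⟩
      congr 1
      ext i j
      rw [Matrix.submatrix_apply, h, h]
    · rintro rfl
      exact ⟨RelEmbedding.refl _, RelEmbedding.refl _, rfl⟩
  rw [permIdeal, h1]

lemma self_prime {k σ : Type*} [Field k] (n : ℕ) (X : Matrix (Fin n) (Fin n) (MvPolynomial σ k))
    (h : Irreducible X.permanent) : (permIdeal n X).IsPrime := by
  rw [permIdeal_self, Ideal.span_singleton_prime h.ne_zero]
  exact h.prime

/-- Let `k` be a field of characteristic `p ≠ 2` (that is, `p = 0` or `p` is an odd prime) and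
`2 ≤ t ≤ min (m, n)`. For each of the three types of matrices (generic, symmetric, Hankel) the ideal
generated by the permanents of all `t × t` submatrices is prime if and only if `t = m = n`. -/
theorem result (k : Type*) [Field k] (p : ℕ) [CharP k p] (hp : p ≠ 2) (m n t : ℕ) (ht : 2 ≤ t)
    (hm : t ≤ m) (hn : t ≤ n) :
    ((permIdeal t (generic k m n)).IsPrime ↔ t = m ∧ t = n) ∧
    (m = n → ((permIdeal t (symmetric k n)).IsPrime ↔ t = m ∧ t = n)) ∧
    ((permIdeal t (hankel k m n)).IsPrime ↔ t = m ∧ t = n) := by
  have h2 : (2 : k) ≠ 0 := by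
    intro h
    have h1 : ((2 : ℕ) : k) = 0 := by exact_mod_cast h
    rw [CharP.cast_eq_zero_iff k p] at h1
    rcases CharP.char_is_prime_or_zero k p with h3 | h3
    · exact hp ((Nat.prime_dvd_prime_iff_eq h3 Nat.prime_two).1 h1)
    · subst h3
      rw [zero_dvd_iff] at h1
      omega
  refine ⟨⟨fun h => ?_, ?_⟩, fun hmn => ⟨fun h => ?_, ?_⟩, ⟨fun h => ?_, ?_⟩⟩
  · by_contra hne
    refine pattern_not_prime h2 ht hm hn hne (fun i j => (i, j)) ?_ h
    intro i j i' j' h
    rw [Prod.mk.injEq] at h
    exact Or.inl ⟨congrArg _ h.1, congrArg _ h.2⟩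
  · rintro ⟨rfl, rfl⟩
    exact self_prime _ _ (Pool.Agent.N729.HQ.ig k t (by omega))
  · subst hmn
    by_contra hne
    refine pattern_not_prime h2 ht hm hn hne (fun i j => s(i, j)) ?_ h
    intro i j i' j' h
    rw [Sym2.eq_iff] at h
    rcases h with ⟨h1, h2⟩ | ⟨h1, h2⟩
    · exact Or.inl ⟨congrArg _ h1, congrArg _ h2⟩
    · exact Or.inr ⟨congrArg _ h1, congrArg _ h2⟩
  · rintro ⟨rfl, rfl⟩
    exact self_prime _ _ (Pool.Agent.N729.HQ.is k t (by omega))
  · by_contra hne
    exact hankel_not_prime h2 ht hm hn hne h
  · rintro ⟨rfl, rfl⟩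
    exact self_prime _ _ (Pool.Agent.N729.HQ.ih k t (by omega))

end Pool.Agent.N729.Shelf.PrimeIff
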